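import Mathlib
import Pool.Agent.T2h17.NS.Fin

/-!
# Lang's conjecture for varieties whose subvarieties carry maps with many preperiodic points

`X` is an integral projective variety over `ℂ` of any dimension, given by its generic point `x`, in
homogeneous coordinates; its function field is the subfield `coords ℂ x` of `K` generated by the ratios
of the coordinates. `SubOf ℂ x z` (`Pool/Agent/TH466/QG/Strong.lean`): the field `E` is the function
field, and `z` the generic point of a closed subvariety `Z` of `X` (`Z = X` is allowed), of dimension
`w = trdeg E`. No smoothness is assumed.

`ManyPrep ℂ d n p q` (`Pool/Agent/Q103/EC/Mxv.lean`): `f = p / q` is a rational map of the projective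
line over `E` of degree `d` (a family of rational maps over an open subset of `Z`) with at least `n`
preperiodic points in `P^1(E)`, and the moduli map `Z ⇢ M_d` is generically finite, i.e. the family has
maximal variation: if `f` is conjugate over an algebraic closure of `E` to a map with coefficients
algebraic over a field `F` between `ℂ` and `E`, then `E` is algebraic over `F`.

`NestedMany B x` (`Pool/Agent/T2h17/NS/Fin.lean`): every closed subvariety `Z` of `X` of dimension at
least two carries such a map of some degree `d ≥ 2` with at least `B d` preperiodic points. The degrees
and the maps may depend on `Z` in any way, and nothing is assumed about the curves in `X`.

Theorem: there are numbers `B d` such that all varieties `X` with `NestedMany B x` satisfy the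
conjecture of Lang and of Green and Griffiths in the following form. The closed curves of geometric
genus at most one in `X` are finite in number (`lowCurves x`, each is given by the forms which vanish on
it), and their union is the special set in all senses (`SpecialSets x`,
`Pool/Agent/Q103/SF/Defs2.lean`): every closed subvariety of positive dimension is of general type or
one of these curves; the Zariski closures of the nonconstant entire curves, of the nonconstant
meromorphic images of `ℂ ^ g` and of the punctured discs with an essential singularity are among these
curves, and each of them is the closure of an entire curve and the image of an elliptic curve; for some
`A`, all morphisms from curves of genus `g` to `X` have degree at most `A (2 g - 2)` or have one of them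
as image. And the nine notions of hyperbolicity are equivalent: `X` is Kobayashi hyperbolic; `X` is
Brody hyperbolic; all holomorphic maps from the punctured disc to `X` extend to the disc; all
meromorphic maps from the spaces `ℂ ^ g` to `X` are constant; all maps from elliptic curves to `X` are
constant; `X` is algebraically hyperbolic; all closed subvarieties of `X` of positive dimension (`X`
included) are of general type; the maps from a pointed curve to `X` with a given value at the marked
point are finite in number; there is no curve of geometric genus at most one on `X`.

Proof. Off a proper closed subset each of the subvarieties `Z` of dimension at least two is hyperbolic
in all senses, by the results for one map (projects GT of helper41, EC and SF of helper103: symmetric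
differentials and functions with zeros of high order from the cross ratios of the preperiodic points).
The Zariski closure of an entire curve, or of a punctured disc with an essential singularity, is an
irreducible closed subvariety `Z` of `X` in which it is dense, so that `Z` has dimension one. The images
of the curves of small genus and degree are controlled by noetherian induction over the closed subsets
of `X`.
-/

set_option autoImplicit false

namespace Pool.Agent.Results.MP_c6ff8d_ag.ManyPreperiodicPoints

open FF Polynomial
open Pool.Agent.W602.GT
open Pool.Agent.TH466.QG (SubOf)
open Pool.Agent.Q103.EC (ManyPrep)
open Pool.Agent.Q103.SF

/-- There are `B d`, `d ≥ 2`, such that every integral projective variety `X`, with the generic point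
`x`, all of whose closed subvarieties `Z` of dimension at least two carry a rational map of some degree
`d ≥ 2` over the function field `E` of `Z` with at least `B d` preperiodic points in `P^1(E)` and with
generically finite moduli map, has the following properties: its closed curves of geometric genus at
most one are finite in number, and their union is the special set in all senses; and the nine notions
of hyperbolicity are equivalent for `X`. -/
theorem result : ∃ B : ℕ → ℕ, ∀ (K : Type) [Field K] [Algebra ℂ K] (M : ℕ) (x : Fin (M + 1) → K),
    (∀ (E : Type) [Field E] [Algebra ℂ E] (w : ℕ) (z : Fin (M + 1) → E), SubOf ℂ x z → 2 ≤ w →
      Algebra.trdeg ℂ E = w → ∃ d : ℕ, 2 ≤ d ∧ ∃ p q : E[X], ManyPrep ℂ d (B d) p q) →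
    SpecialSets x ∧
      List.TFAE [KobayashiHyp x, BrodyHyp x, PicardHyp x, NoMero x, NoElliptic x, AlgHyp x,
        AllGeneral x, GeomHyp x, lowCurves x = ∅] :=
  Pool.Agent.T2h17.NS.many_nested

end Pool.Agent.Results.MP_c6ff8d_ag.ManyPreperiodicPoints
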