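import Mathlib
import Pool.Agent.T2h17.NS.Multi

/-!
# Lang's conjecture for varieties whose subvarieties carry multi-valued maps to the varieties of the values of polynomials

`X` is an integral projective variety over `ℂ` of any dimension, given by its generic point `x`, in
homogeneous coordinates; its function field is the subfield `coords ℂ x` of `K` generated by the ratios
of the coordinates. `SubOf ℂ x z` (`Pool/Agent/TH466/QG/Strong.lean`): the field `E` is the function
field, and `z` the generic point of a closed subvariety `Z` of `X` (`Z = X` is allowed), of dimension
`w = trdeg E`. No smoothness is assumed.

`Corr ℂ E a n r` (`Pool/Agent/N115/JS/Cor.lean`): a rational map with at most `r` values, with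
arbitrary branching, from `Z` to one of the varieties `X_m ⊆ P^N`, `m ≥ 2`, of the points
`y` for which there is a polynomial `P` of degree at most `n` with `y i ^ m = P (a i)` for
`i = 0, ..., N`: it is given by a finite extension of `E` of degree at most `r` and a point `y` of `X_m`
over it; the polynomial is written as `q ^ m * H`, where `H` has no `m`-fold factor, and the reduced map
has the coordinates `y i / q (a i)`. `JointlyFinite f` (`Pool/Agent/N115/JS/Def.lean`): the reduced maps
of the family `f` are jointly generically finite, that is, all functions on `Z` are algebraic over the
conjugates of the ratios of their coordinates. `Bound N n r w` is the inequality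
`4 w r n + (w r n + w r (r - 1) + 1) ^ 2 < 2 (N + 1)`.

Theorem: let every closed subvariety `Z` of `X` of dimension `w ≥ 2` carry a jointly generically finite
family (finite or infinite) of such maps, where `(r (r - 1) + 4) r n < N + 1` and `Bound N n r w`; the
numbers `N`, `n`, `r`, the points `a` and the maps may depend on `Z` in any way, and nothing is assumed
about the curves in `X`. For surfaces `X` this is a condition on `X` only. Then:

(1) the Zariski closure of every nonconstant entire curve in `X` is a curve of geometric genus at most
one (`lowCurves x`, each is given by the forms which vanish on it), and also the Zariski closure of every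
punctured disc with an essential singularity; each such curve is the closure of an entire curve;

(2) every closed subvariety of positive dimension is of general type or a curve of genus at most one;

(3) seven notions of hyperbolicity are equivalent: `X` is Kobayashi hyperbolic; `X` is Brody hyperbolic;
all holomorphic maps from the punctured disc to `X` extend to the disc; all meromorphic maps from the
spaces `ℂ ^ g` to `X` are constant; all maps from elliptic curves to `X` are constant; all closed
subvarieties of `X` of positive dimension (`X` included) are of general type; there is no curve of
geometric genus at most one on `X`.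

Proof. By the theorem on the fibration defined by multi-valued maps (`MP_160ed4_ag.MultivaluedCore`, by
the helpers 115, 966, 42, 835, 701, 664, 459, 603, 849, 530) each `Z` of dimension at least two is
strongly of general type and pseudo-Picard hyperbolic. The Zariski closure of an entire curve, or of a
punctured disc with an essential singularity, is an irreducible closed subvariety in which it is dense,
so that it has dimension one; and a subvariety which is not of general type has dimension one.
-/

set_option autoImplicit false

namespace Pool.Agent.Results.MP_c6ff8d_ag.MultivaluedMaps

open FF Metric
open Pool.Agent.W602.GT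
open Pool.Agent.Y221.PD
open Pool.Agent.Y221.BD (EntireCurve)
open Pool.Agent.TH466.QG (SubOf)
open Pool.Agent.N115.JS (Corr Bound JointlyFinite)
open Pool.Agent.Q103.SF

/-- Let `X` be an integral projective variety, with the generic point `x`, all of whose closed
subvarieties `Z` of dimension `w ≥ 2` carry a jointly generically finite family of maps with at most `r`
values to the varieties `X_m` of the vectors whose `m`-th powers are the values of a polynomial of degree
at most `n` at `N + 1` points, where `N` is large with respect to `n`, `r` and `w`. Then the Zariski
closures of entire curves and of punctured discs with an essential singularity are curves of genus at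
most one, all closed subvarieties of positive dimension are of general type or such curves, and the
seven notions of hyperbolicity are equivalent for `X`. -/
theorem result {M : ℕ} {K : Type} [Field K] [Algebra ℂ K] {x : Fin (M + 1) → K}
    (H : ∀ (E : Type) [Field E] [Algebra ℂ E] (w : ℕ) (z : Fin (M + 1) → E), SubOf ℂ x z → 2 ≤ w →
      Algebra.trdeg ℂ E = w → ∃ (N n r : ℕ) (a : Fin (N + 1) → ℂ) (ι : Type)
        (f : ι → Corr ℂ E a n r), 1 ≤ r ∧ (r * (r - 1) + 4) * (r * n) < N + 1 ∧ Bound N n r w ∧
          Function.Injective a ∧ JointlyFinite f) :
    (∀ f, EntireCurve x f → vanOn Set.univ (fun t i => f i t) ∈ lowCurves x) ∧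
    (∀ f, EssentialDisc x f → vanOn (ball (0 : ℂ) 1 \ {0}) f ∈ lowCurves x) ∧
    (∀ V ∈ lowCurves x, ∃ f, EntireCurve x f ∧ vanOn Set.univ (fun t i => f i t) = V) ∧
    (∀ (E : Type) [Field E] [Algebra ℂ E] (w : ℕ) (z : Fin (M + 1) → E), SubOf ℂ x z → 1 ≤ w →
      Algebra.trdeg ℂ E = w → GeneralType ℂ E w ∨ van z ∈ lowCurves x) ∧
    List.TFAE [KobayashiHyp x, BrodyHyp x, PicardHyp x, NoMero x, NoElliptic x, AllGeneral x,
      lowCurves x = ∅] :=
  Pool.Agent.T2h17.NS.maps_nested H

end Pool.Agent.Results.MP_c6ff8d_ag.MultivaluedMaps
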