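import Pool.Agent.T2h17.LD.Abel
import Pool.Agent.T2h17.LD.Conv

/-!
# Lang's conjecture for projective varieties over abelian varieties

`X = {F = 0}` in `ℙⁿ` is a projective algebraic set of any dimension, with arbitrary singularities, and
`α : X → ℂᵐ / Λ` a holomorphic map to an abelian variety (a complex torus with a Riemann form) of any
dimension `m`. The fibres of `α` have dimension at most one (`FibresLeOne`,
`Pool/Agent/T2h17/LD/Abel.lean`), for example they are curves. `S = {G = 0}` is a closed subset of `X`
of dimension at most one (`DimLeOne`) which contains the points where `X` is not a manifold of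
dimension `d`; `S` may be empty if `X` is a manifold. `TwoForms` (`Pool/Agent/N154/TB/Defs.lean`): the
2-forms of `X` are positive outside `S` in the directions of the abelian variety.

For example, `X` can be any smooth surface of general type with a nonconstant holomorphic map to an
abelian variety, that is, any smooth surface of general type with `q(X) > 0`: `S` is the union of the
curves outside of which the sections of `K_X ^ ν ⊗ O (-1)`, for some `ν`, have no common zeros; or a
manifold with ample bundle `Λ² Ω` with such a map.

The theorem: `X` is hyperbolic if and only if all closed curves in `X` are of general type. In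
particular, if all closed subvarieties of positive dimension of `X` are of general type, then `X` is
hyperbolic.

Proof. Suppose that all curves are of general type. By Brody's lemma an entire curve in a fibre of `α`,
or in `S`, gives one with bounded derivative there; its Zariski closure is a curve by the conditions on
the dimensions, but a curve with an entire curve of bounded derivative is not of general type. So the
fibres and `S` are hyperbolic, and the starting theorem `MP_b9fedf_ag.SingularOverAbelian` says that
all entire curves in `X` factor through elliptic curves. Again their closures are curves which are not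
of general type. The converse: a curve of genus at most one is the closure of the image of an entire
curve.
-/

set_option autoImplicit false

open Pool.Agent.W602.GT Pool.Agent.T2h17.LD
open Pool.Agent.N154.TB (BrodyHyp TwoForms Zeros)
open Pool.Agent.N154.TT (RiemannForm HolToTorus)

/-- Let `X = {F = 0}` be a projective algebraic set with arbitrary singularities, `α : X → ℂᵐ / Λ` a
holomorphic map to an abelian variety (a complex torus with a Riemann form `H`) with fibres of
dimension at most one, and `S = {G = 0}` a closed subset of `X` of dimension at most one which
contains the points where `X` is not a manifold of dimension `d`. Suppose that the 2-forms of `X` are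
positive outside `S` in the directions of the abelian variety. Then `X` is (Brody, or equivalently
Kobayashi) hyperbolic if and only if all closed curves in `X` are of general type. In particular, if
all closed subvarieties of positive dimension of `X` are of general type, then `X` is hyperbolic. -/
theorem Pool.Agent.Results.MP_c6ff8d_ag.VarietiesOverAbelianVarieties.result {n d m : ℕ}
    {ι ι' : Type} (F : ι → MvPolynomial (Fin (n + 1)) ℂ) (hF : ∀ i, IsForm (F i))
    (G : ι' → MvPolynomial (Fin (n + 1)) ℂ) (hG : ∀ j, IsForm (G j)) (hS : DimLeOne F G)
    (Λ : Submodule ℤ (Fin m → ℂ)) [DiscreteTopology Λ] [IsZLattice ℝ Λ]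
    (H : (Fin m → ℂ) → (Fin m → ℂ) → ℂ) (hH : RiemannForm Λ H)
    (α : (Fin (n + 1) → ℂ) → (Fin m → ℂ) ⧸ Λ) (hα : HolToTorus (Cone F) Λ α)
    (hfib : FibresLeOne F α) {κ : Type} (k : κ → ℕ)
    (η : κ → (Fin (n + 1) → ℂ) → (Fin (n + 1) → ℂ) → (Fin (n + 1) → ℂ) → ℂ)
    (hη : TwoForms (Cone F) (Zeros G) d α k η) :
    (BrodyHyp (Cone F) ↔ CurvesGeneral F) ∧
    ((∀ (K : Type) [Field K] [Algebra ℂ K] (w : ℕ) (y : Fin (n + 1) → K), 1 ≤ w →
      SubVar F K w y → GeneralType ℂ K w) → BrodyHyp (Cone F)) :=
  ⟨⟨fun h K _ _ y hy => general_of_brody hF (fun f h1 h2 => h f ⟨h1, h2⟩) hy,
    fun h => brody_over_abelian hF hG hH hα hη hfib hS h⟩,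
    fun h => brody_over_abelian hF hG hH hα hη hfib hS fun K _ _ y hy => h K 1 y le_rfl hy⟩
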